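import Mathlib

/-!
Etale tools, part 3: the decomposition ring is residually trivial.

`G` finite acting on a commutative ring `N`, `O <= C` subrings with `O = C^G`, `Pos` a maximal ideal
of `C` (as a predicate), `D = {g : g Pos <= Pos}`.  Every `D`-invariant element `a` of `C` is, after
multiplication by a `D`-invariant `s` outside the maximal ideal, congruent to an element of `O`
modulo the ideal generated by the elements of `O` in the maximal ideal.
-/

namespace Pool.Agent.ALLE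

open Polynomial

section Dec

variable {N G : Type*} [CommRing N] [Group G] [Fintype G] [MulSemiringAction G N]

/-- `Pos` is (the membership predicate of) a maximal ideal of the subring `C`. -/
structure MaxPred (C : Subring N) (Pos : N → Prop) : Prop where
  zero : Pos 0
  add : ∀ x y, Pos x → Pos y → Pos (x + y)
  mul : ∀ x ∈ C, ∀ y, Pos y → Pos (x * y)
  one : ¬ Pos 1
  inv : ∀ x ∈ C, ¬ Pos x → ∃ y ∈ C, Pos (x * y - 1)

namespace MaxPred

variable {C : Subring N} {Pos : N → Prop} (h : MaxPred C Pos)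
include h

theorem neg {x : N} (hx : Pos x) : Pos (-x) := by
  have := h.mul (-1) (C.neg_mem C.one_mem) x hx
  rwa [neg_one_mul] at this

theorem sub {x y : N} (hx : Pos x) (hy : Pos y) : Pos (x - y) := by
  rw [sub_eq_add_neg]; exact h.add _ _ hx (h.neg hy)

theorem prime {x y : N} (hx : x ∈ C) (hy : y ∈ C) (hxy : Pos (x * y)) (hx' : ¬ Pos x) : Pos y := by
  obtain ⟨z, hz, hz'⟩ := h.inv x hx hx'
  have h1 : Pos (z * (x * y)) := h.mul z hz _ hxy
  have h2 : Pos (y * (x * z - 1)) := h.mul y hy _ hz'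
  have h3 := h.sub h1 h2
  have h4 : z * (x * y) - y * (x * z - 1) = y := by ring
  rwa [h4] at h3

theorem mul' {x y : N} (hx : Pos x) (hy : y ∈ C) : Pos (x * y) := by
  rw [mul_comm]; exact h.mul y hy x hx

theorem sum {ι : Type*} (s : Finset ι) (f : ι → N) (hf : ∀ i ∈ s, Pos (f i)) :
    Pos (∑ i ∈ s, f i) := by
  classical
  induction s using Finset.induction_on with
  | empty => simpa using h.zero
  | insert i s hi ih =>
    rw [Finset.sum_insert hi]
    exact h.add _ _ (hf i (Finset.mem_insert_self _ _))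
      (ih fun j hj => hf j (Finset.mem_insert_of_mem hj))

theorem prod_one {ι : Type*} (s : Finset ι) (f : ι → N) (hf : ∀ i ∈ s, f i ∈ C ∧ Pos (f i - 1)) :
    Pos (∏ i ∈ s, f i - 1) := by
  classical
  induction s using Finset.induction_on with
  | empty => simpa using h.zero
  | insert i s hi ih =>
    rw [Finset.prod_insert hi]
    have h1 := ih fun j hj => hf j (Finset.mem_insert_of_mem hj)
    have h2 := hf i (Finset.mem_insert_self _ _)
    have h3 : f i * ∏ j ∈ s, f j - 1 = f i * (∏ j ∈ s, f j - 1) + (f i - 1) := by ring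
    rw [h3]
    exact h.add _ _ (h.mul _ h2.1 _ h1) h2.2

theorem prod_not {ι : Type*} (s : Finset ι) (f : ι → N) (hf : ∀ i ∈ s, f i ∈ C ∧ ¬ Pos (f i)) :
    ¬ Pos (∏ i ∈ s, f i) := by
  classical
  induction s using Finset.induction_on with
  | empty => simpa using h.one
  | insert i s hi ih =>
    rw [Finset.prod_insert hi]
    intro hp
    have h2 := hf i (Finset.mem_insert_self _ _)
    exact ih (fun j hj => hf j (Finset.mem_insert_of_mem hj))
      (h.prime h2.1 (C.prod_mem fun j hj => (hf j (Finset.mem_insert_of_mem hj)).1) hp h2.2)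

theorem prod_pos {ι : Type*} (s : Finset ι) (f : ι → N) (hf : ∀ i ∈ s, f i ∈ C) {i : ι}
    (hi : i ∈ s) (hp : Pos (f i)) : Pos (∏ j ∈ s, f j) := by
  classical
  rw [← Finset.mul_prod_erase s f hi]
  exact h.mul' hp (C.prod_mem fun j hj => hf j (Finset.mem_of_mem_erase hj))

theorem congr_pow {x : N} (hx : x ∈ C) (hp : Pos (x - 1)) (n : ℕ) : Pos (x ^ n - 1) := by
  have := h.prod_one (Finset.range n) (fun _ => x) (fun _ _ => ⟨hx, hp⟩)
  simpa using this

end MaxPred

variable {O C : Subring N} {Pos : N → Prop}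

/-- The decomposition group. -/
def InD (C : Subring N) (Pos : N → Prop) (g : G) : Prop := ∀ a ∈ C, Pos a → Pos (g • a)

omit [Fintype G] in
theorem InD.one : InD C Pos (1 : G) := fun a _ ha => by rwa [one_smul]

omit [Fintype G] in
theorem InD.mul (hC : ∀ g : G, ∀ a ∈ C, g • a ∈ C) {g g' : G} (hg : InD C Pos g)
    (hg' : InD C Pos g') : InD C Pos (g * g') := fun a ha hp => by
  rw [mul_smul]; exact hg _ (hC g' a ha) (hg' a ha hp)

theorem InD.inv (hC : ∀ g : G, ∀ a ∈ C, g • a ∈ C) {g : G} (hg : InD C Pos g) :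
    InD C Pos g⁻¹ := by
  have h1 : g⁻¹ = g ^ (orderOf g - 1) := by
    rw [inv_eq_iff_mul_eq_one, ← pow_succ', Nat.sub_add_cancel (orderOf_pos g), pow_orderOf_eq_one]
  rw [h1]
  generalize orderOf g - 1 = n
  induction n with
  | zero => rw [pow_zero]; exact InD.one
  | succ n ih => rw [pow_succ]; exact ih.mul hC hg

/-- The decomposition group as a subgroup. -/
def decSub (C : Subring N) (Pos : N → Prop) (hC : ∀ g : G, ∀ a ∈ C, g • a ∈ C) : Subgroup G where
  carrier := {g | InD C Pos g}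
  mul_mem' := fun {_ _} ha hb => InD.mul hC ha hb
  one_mem' := InD.one
  inv_mem' := fun {_} ha => InD.inv hC ha

theorem mem_decSub {hC : ∀ g : G, ∀ a ∈ C, g • a ∈ C} {g : G} :
    g ∈ decSub C Pos hC ↔ InD C Pos g := Iff.rfl

/-- An element `θ` of the decomposition ring, `≡ 1` at the chosen maximal ideal, all its other
conjugates `≡ 0`. -/
theorem exists_theta (h : MaxPred C Pos) (hC : ∀ g : G, ∀ a ∈ C, g • a ∈ C) :
    ∃ θ ∈ C, (∀ g : G, InD C Pos g → g • θ = θ) ∧ Pos (θ - 1) ∧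
      ∀ g : G, ¬ InD C Pos g → Pos (g • θ) := by
  classical
  have hb : ∀ g : G, ∃ b ∈ C, ¬ Pos b ∧ (¬ InD C Pos g → Pos (g • b)) := by
    intro g
    by_cases hg : InD C Pos g
    · exact ⟨1, C.one_mem, h.one, fun h' => absurd hg h'⟩
    · have hg' : ¬ InD C Pos g⁻¹ := fun h' => hg (by simpa using h'.inv hC)
      unfold InD at hg'
      push Not at hg'
      obtain ⟨a, ha, hpa, hna⟩ := hg'
      refine ⟨g⁻¹ • a, hC _ _ ha, hna, fun _ => ?_⟩
      rwa [smul_inv_smul]
  choose b hbC hbn hbp using hb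
  set e₀ : N := ∏ g : G, b g with he₀
  have he₀C : e₀ ∈ C := C.prod_mem fun g _ => hbC g
  have he₀n : ¬ Pos e₀ := h.prod_not _ _ fun g _ => ⟨hbC g, hbn g⟩
  have he₀p : ∀ g : G, ¬ InD C Pos g → Pos (g • e₀) := by
    intro g hg
    rw [he₀, Finset.smul_prod']
    exact h.prod_pos _ _ (fun j _ => hC _ _ (hbC j)) (Finset.mem_univ g) (hbp g hg)
  obtain ⟨c, hcC, hc⟩ := h.inv e₀ he₀C he₀n
  set e : N := e₀ * c with he
  have heC : e ∈ C := C.mul_mem he₀C hcC
  have hep : ∀ g : G, ¬ InD C Pos g → Pos (g • e) := by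
    intro g hg
    rw [he, smul_mul']
    exact h.mul' (he₀p g hg) (hC _ _ hcC)
  let Df : Finset G := Finset.univ.filter fun g => InD C Pos g
  refine ⟨∏ τ ∈ Df, τ • e, C.prod_mem fun τ _ => hC _ _ heC, ?_, ?_, ?_⟩
  · intro g hg
    rw [Finset.smul_prod']
    refine Finset.prod_bij' (fun τ _ => g * τ) (fun τ _ => g⁻¹ * τ) ?_ ?_ ?_ ?_ ?_
    · intro τ hτ
      rw [Finset.mem_filter] at hτ ⊢
      exact ⟨Finset.mem_univ _, hg.mul hC hτ.2⟩
    · intro τ hτ
      rw [Finset.mem_filter] at hτ ⊢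
      exact ⟨Finset.mem_univ _, (hg.inv hC).mul hC hτ.2⟩
    · intro τ _; group
    · intro τ _; group
    · intro τ _; rw [mul_smul]
  · refine h.prod_one _ _ fun τ hτ => ⟨hC _ _ heC, ?_⟩
    rw [Finset.mem_filter] at hτ
    have : τ • e - 1 = τ • (e - 1) := by rw [smul_sub, smul_one]
    rw [this]
    exact hτ.2 _ (C.sub_mem heC C.one_mem) hc
  · intro g hg
    rw [Finset.smul_prod']
    refine h.prod_pos _ _ (fun j _ => hC _ _ (hC _ _ heC)) (i := 1) ?_ ?_
    · rw [Finset.mem_filter]; exact ⟨Finset.mem_univ _, InD.one⟩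
    · rw [one_smul]; exact hep g hg

/-! ### conjugates indexed by cosets -/

section Cosets

variable (C Pos) in
/-- The elements of `C` fixed by the decomposition group. -/
def FixD (G : Type*) [Group G] [MulSemiringAction G N] : Subring N where
  carrier := {x | x ∈ C ∧ ∀ g : G, InD C Pos g → g • x = x}
  mul_mem' := fun {a b} ha hb => ⟨C.mul_mem ha.1 hb.1, fun g hg => by
    rw [smul_mul', ha.2 g hg, hb.2 g hg]⟩
  one_mem' := ⟨C.one_mem, fun g _ => smul_one g⟩
  add_mem' := fun {a b} ha hb => ⟨C.add_mem ha.1 hb.1, fun g hg => by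
    rw [smul_add, ha.2 g hg, hb.2 g hg]⟩
  zero_mem' := ⟨C.zero_mem, fun g _ => smul_zero g⟩
  neg_mem' := fun {a} ha => ⟨C.neg_mem ha.1, fun g hg => by rw [smul_neg, ha.2 g hg]⟩

omit [Fintype G] in
theorem mem_FixD {x : N} : x ∈ FixD C Pos G ↔ x ∈ C ∧ ∀ g : G, InD C Pos g → g • x = x := Iff.rfl

variable (hC : ∀ g : G, ∀ a ∈ C, g • a ∈ C)

/-- The conjugate of `x` attached to a coset. -/
noncomputable def cj (D : Subgroup G) (q : G ⧸ D) (x : N) : N := q.out • x

omit [Fintype G] in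
theorem smul_cj (D : Subgroup G) (g : G) (q : G ⧸ D) (x : N) (hx : ∀ d ∈ D, d • x = x) :
    g • cj D q x = cj D (g • q) x := by
  obtain ⟨d, hd⟩ := QuotientGroup.mk_out_eq_mul D (g * q.out)
  have h1 : g • q = ((g * q.out : G) : G ⧸ D) := by
    conv_lhs => rw [← QuotientGroup.out_eq' q]
    rfl
  unfold cj
  rw [h1, hd, mul_smul, mul_smul, hx d.1 d.2]

omit [Fintype G] in
theorem cj_one (D : Subgroup G) (x : N) (hx : ∀ d ∈ D, d • x = x) :
    cj D ((1 : G) : G ⧸ D) x = x := by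
  obtain ⟨d, hd⟩ := QuotientGroup.mk_out_eq_mul D (1 : G)
  unfold cj
  rw [hd, one_mul, hx d.1 d.2]

/-- The interpolating polynomial of `a`. -/
noncomputable def ip (D : Subgroup G) [Fintype (G ⧸ D)] [DecidableEq (G ⧸ D)] (θ a : N) : N[X] :=
  ∑ q : G ⧸ D, Polynomial.C (cj D q a) *
    ∏ q' ∈ Finset.univ.erase q, (X - Polynomial.C (cj D q' θ))

/-- The minimal polynomial of `θ`. -/
noncomputable def mp (D : Subgroup G) [Fintype (G ⧸ D)] (θ : N) : N[X] :=
  ∏ q : G ⧸ D, (X - Polynomial.C (cj D q θ))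

omit [Fintype G] in
theorem mp_map (D : Subgroup G) [Fintype (G ⧸ D)] (θ : N) (hθ : ∀ d ∈ D, d • θ = θ) (g : G) :
    (mp D θ).map (MulSemiringAction.toRingHom G N g) = mp D θ := by
  unfold mp
  rw [Polynomial.map_prod]
  have h1 : ∀ q : G ⧸ D, (X - Polynomial.C (cj D q θ)).map (MulSemiringAction.toRingHom G N g) =
      X - Polynomial.C (cj D (g • q) θ) := by
    intro q
    rw [Polynomial.map_sub, Polynomial.map_X, Polynomial.map_C, MulSemiringAction.toRingHom_apply,
      smul_cj D g q θ hθ]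
  rw [Finset.prod_congr rfl fun q _ => h1 q]
  exact Fintype.prod_equiv (MulAction.toPerm (α := G) (β := G ⧸ D) g) _ _ fun q => rfl

omit [Fintype G] in
theorem ip_map (D : Subgroup G) [Fintype (G ⧸ D)] [DecidableEq (G ⧸ D)] (θ a : N) (hθ : ∀ d ∈ D, d • θ = θ) (ha : ∀ d ∈ D, d • a = a)
    (g : G) : (ip D θ a).map (MulSemiringAction.toRingHom G N g) = ip D θ a := by
  unfold ip
  rw [Polynomial.map_sum]
  refine Fintype.sum_equiv (MulAction.toPerm (α := G) (β := G ⧸ D) g) _ _ fun q => ?_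
  rw [Polynomial.map_mul, Polynomial.map_C, MulSemiringAction.toRingHom_apply,
    smul_cj D g q a ha, Polynomial.map_prod]
  change _ = Polynomial.C (cj D (g • q) a) * _
  congr 1
  refine Finset.prod_bij' (fun q' _ => g • q') (fun q' _ => g⁻¹ • q') ?_ ?_ ?_ ?_ ?_
  · intro q' hq'
    rw [Finset.mem_erase] at hq' ⊢
    refine ⟨fun h => hq'.1 ?_, Finset.mem_univ _⟩
    exact smul_left_cancel g h
  · intro q' hq'
    rw [Finset.mem_erase] at hq' ⊢
    refine ⟨fun h => hq'.1 ?_, Finset.mem_univ _⟩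
    change q' = g • q
    rw [← h, smul_inv_smul]
  · intro q' _; exact inv_smul_smul g q'
  · intro q' _; exact smul_inv_smul g q'
  · intro q' _
    rw [Polynomial.map_sub, Polynomial.map_X, Polynomial.map_C, MulSemiringAction.toRingHom_apply,
      smul_cj D g q' θ hθ]

/-- coefficients in a subring -/
def CoeffIn (C : Subring N) (f : N[X]) : Prop := ∀ i, f.coeff i ∈ C

omit [Group G] [Fintype G] [MulSemiringAction G N] in
theorem CoeffIn.mul {f g : N[X]} (hf : CoeffIn C f) (hg : CoeffIn C g) : CoeffIn C (f * g) := by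
  intro i
  rw [Polynomial.coeff_mul]
  exact C.sum_mem fun j _ => C.mul_mem (hf _) (hg _)

omit [Group G] [Fintype G] [MulSemiringAction G N] in
theorem CoeffIn.sub {f g : N[X]} (hf : CoeffIn C f) (hg : CoeffIn C g) : CoeffIn C (f - g) := by
  intro i
  rw [Polynomial.coeff_sub]
  exact C.sub_mem (hf _) (hg _)

omit [Group G] [Fintype G] [MulSemiringAction G N] in
theorem CoeffIn.const {x : N} (hx : x ∈ C) : CoeffIn C (Polynomial.C x) := by
  intro i
  rw [Polynomial.coeff_C]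
  split_ifs
  · exact hx
  · exact C.zero_mem

omit [Group G] [Fintype G] [MulSemiringAction G N] in
theorem CoeffIn.X : CoeffIn C (X : N[X]) := by
  intro i
  rw [Polynomial.coeff_X]
  split_ifs
  · exact C.one_mem
  · exact C.zero_mem

omit [Group G] [Fintype G] [MulSemiringAction G N] in
theorem CoeffIn.prod {ι : Type*} (s : Finset ι) (f : ι → N[X]) (hf : ∀ i ∈ s, CoeffIn C (f i)) :
    CoeffIn C (∏ i ∈ s, f i) := by
  classical
  induction s using Finset.induction_on with
  | empty =>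
    rw [Finset.prod_empty, ← Polynomial.C_1]
    exact CoeffIn.const C.one_mem
  | insert i s hi ih =>
    rw [Finset.prod_insert hi]
    exact (hf i (Finset.mem_insert_self _ _)).mul (ih fun j hj => hf j (Finset.mem_insert_of_mem hj))

omit [Group G] [Fintype G] [MulSemiringAction G N] in
theorem CoeffIn.sum {ι : Type*} (s : Finset ι) (f : ι → N[X]) (hf : ∀ i ∈ s, CoeffIn C (f i)) :
    CoeffIn C (∑ i ∈ s, f i) := by
  intro j
  rw [Polynomial.finsetSum_coeff]
  exact C.sum_mem fun i hi => hf i hi j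

omit [Group G] [Fintype G] [MulSemiringAction G N] in
theorem CoeffIn.X_pow (n : ℕ) : CoeffIn C ((Polynomial.X : N[X]) ^ n) := by
  have := CoeffIn.prod (C := C) (Finset.range n) (fun _ => (Polynomial.X : N[X]))
    fun _ _ => CoeffIn.X
  simpa using this

/-- all coefficients in the maximal ideal -/
def CoeffPos (Pos : N → Prop) (f : N[X]) : Prop := ∀ i, Pos (f.coeff i)

omit [Group G] [Fintype G] [MulSemiringAction G N] in
theorem CoeffPos.mul (h : MaxPred C Pos) {f g : N[X]} (hf : CoeffIn C f) (hg : CoeffPos Pos g) :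
    CoeffPos Pos (f * g) := by
  intro i
  rw [Polynomial.coeff_mul]
  exact h.sum _ _ fun j _ => h.mul _ (hf _) _ (hg _)

omit [Group G] [Fintype G] [MulSemiringAction G N] in
theorem CoeffPos.add (h : MaxPred C Pos) {f g : N[X]} (hf : CoeffPos Pos f) (hg : CoeffPos Pos g) :
    CoeffPos Pos (f + g) := by
  intro i
  rw [Polynomial.coeff_add]
  exact h.add _ _ (hf _) (hg _)

omit [Group G] [Fintype G] [MulSemiringAction G N] in
theorem CoeffPos.const (h : MaxPred C Pos) {x : N} (hx : Pos x) :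
    CoeffPos Pos (Polynomial.C x) := by
  intro i
  rw [Polynomial.coeff_C]
  split_ifs
  · exact hx
  · exact h.zero

omit [Group G] [Fintype G] [MulSemiringAction G N] in
theorem prod_congr_X (h : MaxPred C Pos) {ι : Type*} (s : Finset ι) (c : ι → N)
    (hc : ∀ i ∈ s, c i ∈ C ∧ Pos (c i)) :
    CoeffPos Pos (∏ i ∈ s, (X - Polynomial.C (c i)) - X ^ s.card) := by
  classical
  induction s using Finset.induction_on with
  | empty =>
    rw [Finset.prod_empty, Finset.card_empty, pow_zero, sub_self]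
    intro i
    rw [Polynomial.coeff_zero]
    exact h.zero
  | insert i s hi ih =>
    rw [Finset.prod_insert hi, Finset.card_insert_of_notMem hi]
    have h1 := ih fun j hj => hc j (Finset.mem_insert_of_mem hj)
    have h2 := hc i (Finset.mem_insert_self _ _)
    have h3 : (X - Polynomial.C (c i)) * ∏ j ∈ s, (X - Polynomial.C (c j)) - X ^ (s.card + 1) =
        X * (∏ j ∈ s, (X - Polynomial.C (c j)) - X ^ s.card) +
          (∏ j ∈ s, (X - Polynomial.C (c j))) * Polynomial.C (-(c i)) := by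
      rw [Polynomial.C_neg]; ring
    rw [h3]
    refine CoeffPos.add h (CoeffPos.mul h CoeffIn.X h1) (CoeffPos.mul h ?_
      (CoeffPos.const h (h.neg h2.2)))
    exact CoeffIn.prod _ _ fun j hj => CoeffIn.X.sub
      (CoeffIn.const (hc j (Finset.mem_insert_of_mem hj)).1)

omit [Group G] [Fintype G] [MulSemiringAction G N] in
/-- `f(θ) - f(1)` is `(θ - 1)` times an element of any subring containing `θ` and the
coefficients. -/
theorem eval_sub_eval (E : Subring N) {f : N[X]} (hf : CoeffIn E f) {θ : N} (hθ : θ ∈ E) :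
    ∃ c ∈ E, f.eval θ - f.eval 1 = (θ - 1) * c := by
  have h1 : ∀ n : ℕ, ∃ c ∈ E, θ ^ n - 1 = (θ - 1) * c := by
    intro n
    refine ⟨∑ i ∈ Finset.range n, θ ^ i, E.sum_mem fun i _ => E.pow_mem hθ i, ?_⟩
    rw [mul_comm, geom_sum_mul]
  choose c hc hc' using h1
  refine ⟨∑ i ∈ Finset.range (f.natDegree + 1), f.coeff i * c i,
    E.sum_mem fun i _ => E.mul_mem (hf i) (hc i), ?_⟩
  rw [Polynomial.eval_eq_sum_range, Polynomial.eval_eq_sum_range, ← Finset.sum_sub_distrib,
    Finset.mul_sum]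
  refine Finset.sum_congr rfl fun i _ => ?_
  rw [one_pow, mul_one]
  have : f.coeff i * θ ^ i - f.coeff i = f.coeff i * (θ ^ i - 1) := by ring
  rw [this, hc']
  ring

/-- The sums of products of `n` elements of the maximal ideal of `O` with an element of `E`. -/
def mpow (O : Subring N) (Pos : N → Prop) (E : Set N) (n : ℕ) : AddSubgroup N :=
  AddSubgroup.closure {z | ∃ m : Fin n → N, (∀ i, m i ∈ O ∧ Pos (m i)) ∧ ∃ c ∈ E,
    z = (∏ i, m i) * c}

omit [Group G] [Fintype G] [MulSemiringAction G N] in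
theorem mpow_one {E : Set N} {m c : N} (hm : m ∈ O) (hp : Pos m) (hc : c ∈ E) :
    m * c ∈ mpow O Pos E 1 :=
  AddSubgroup.subset_closure ⟨fun _ => m, fun _ => ⟨hm, hp⟩, c, hc, by simp⟩

omit [Group G] [Fintype G] [MulSemiringAction G N] in
theorem mpow_mul_right (E : Subring N) {n : ℕ} {x c : N} (hx : x ∈ mpow O Pos (E : Set N) n)
    (hc : c ∈ E) : x * c ∈ mpow O Pos (E : Set N) n := by
  unfold mpow at hx
  induction hx using AddSubgroup.closure_induction with
  | mem x hx =>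
    obtain ⟨m, hm, d, hd, rfl⟩ := hx
    exact AddSubgroup.subset_closure ⟨m, hm, d * c, E.mul_mem hd hc, by ring⟩
  | zero => rw [zero_mul]; exact AddSubgroup.zero_mem _
  | add x y _ _ hx hy => rw [add_mul]; exact AddSubgroup.add_mem _ hx hy
  | neg x _ hx => rw [neg_mul]; exact AddSubgroup.neg_mem _ hx

omit [Group G] [Fintype G] [MulSemiringAction G N] in
theorem mpow_mul {E : Set N} {n j : ℕ} {x : N} (hx : x ∈ mpow O Pos E j)
    (m : Fin n → N) (hm : ∀ i, m i ∈ O ∧ Pos (m i)) :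
    (∏ i, m i) * x ∈ mpow O Pos E (n + j) := by
  unfold mpow at hx
  induction hx using AddSubgroup.closure_induction with
  | mem x hx =>
    obtain ⟨m', hm', d, hd, rfl⟩ := hx
    refine AddSubgroup.subset_closure ⟨Fin.append m m', ?_, d, hd, ?_⟩
    · intro i
      refine Fin.addCases (fun i => ?_) (fun i => ?_) i
      · rw [Fin.append_left]; exact hm i
      · rw [Fin.append_right]; exact hm' i
    · rw [Fin.prod_univ_add]
      simp only [Fin.append_left, Fin.append_right]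
      ring
  | zero => rw [mul_zero]; exact AddSubgroup.zero_mem _
  | add x y _ _ hx hy => rw [mul_add]; exact AddSubgroup.add_mem _ hx hy
  | neg x _ hx => rw [mul_neg]; exact AddSubgroup.neg_mem _ hx

omit [Group G] [Fintype G] [MulSemiringAction G N] in
/-- From first order to order `n`. -/
theorem mpow_iter (E : Subring N) (h1 : ∀ x ∈ E, ∃ b ∈ O, x - b ∈ mpow O Pos E 1)
    (n : ℕ) : ∀ x ∈ E, ∃ b ∈ O, x - b ∈ mpow O Pos (E : Set N) n := by
  have key : ∀ n : ℕ, ∀ x ∈ mpow O Pos (E : Set N) n, ∃ b ∈ O,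
      x - b ∈ mpow O Pos (E : Set N) (n + 1) := by
    intro n x hx
    unfold mpow at hx
    induction hx using AddSubgroup.closure_induction with
    | mem x hx =>
      obtain ⟨m, hm, c, hc, rfl⟩ := hx
      obtain ⟨b, hb, hb'⟩ := h1 c hc
      refine ⟨(∏ i, m i) * b, O.mul_mem (O.prod_mem fun i _ => (hm i).1) hb, ?_⟩
      rw [← mul_sub]
      exact mpow_mul hb' m hm
    | zero => exact ⟨0, O.zero_mem, by rw [sub_zero]; exact AddSubgroup.zero_mem _⟩
    | add x y _ _ hx hy =>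
      obtain ⟨b, hb, hb'⟩ := hx
      obtain ⟨c, hc, hc'⟩ := hy
      refine ⟨b + c, O.add_mem hb hc, ?_⟩
      have : x + y - (b + c) = (x - b) + (y - c) := by ring
      rw [this]
      exact AddSubgroup.add_mem _ hb' hc'
    | neg x _ hx =>
      obtain ⟨b, hb, hb'⟩ := hx
      refine ⟨-b, O.neg_mem hb, ?_⟩
      have : -x - -b = -(x - b) := by ring
      rw [this]
      exact AddSubgroup.neg_mem _ hb'
  intro x hx
  induction n with
  | zero =>
    refine ⟨0, O.zero_mem, ?_⟩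
    rw [sub_zero]
    refine AddSubgroup.subset_closure ⟨Fin.elim0, fun i => i.elim0, x, hx, ?_⟩
    simp
  | succ n ih =>
    obtain ⟨b, hb, hb'⟩ := ih
    obtain ⟨c, hc, hc'⟩ := key n _ hb'
    refine ⟨b + c, O.add_mem hb hc, ?_⟩
    have : x - (b + c) = x - b - c := by ring
    rw [this]
    exact hc'

end Cosets

section Main

variable {hC : ∀ g : G, ∀ a ∈ C, g • a ∈ C}

/-- First order statement before localisation. -/
theorem dec_first (h : MaxPred C Pos) (hC : ∀ g : G, ∀ a ∈ C, g • a ∈ C) (hOC : O ≤ C)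
    (hfix : ∀ g : G, ∀ x ∈ O, g • x = x)
    (hinv : ∀ x ∈ C, (∀ g : G, g • x = x) → x ∈ O)
    (hloc : ∀ x ∈ O, ¬ Pos x → ∃ y ∈ O, x * y = 1)
    (a : N) (ha : a ∈ FixD C Pos G) :
    ∃ b ∈ O, ∃ s ∈ FixD C Pos G, ¬ Pos s ∧
      s * (a - b) ∈ mpow O Pos (FixD C Pos G : Set N) 1 := by
  classical
  obtain ⟨θ, hθC, hθD, hθ1, hθp⟩ := exists_theta h hC
  let D : Subgroup G := decSub C Pos hC
  have : Fintype (G ⧸ D) := Fintype.ofFinite _
  set E : Subring N := FixD C Pos G with hE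
  have hOE : O ≤ E := fun x hx => ⟨hOC hx, fun g _ => hfix g x hx⟩
  have hθE : θ ∈ E := ⟨hθC, hθD⟩
  have hcjC : ∀ q : G ⧸ D, ∀ x ∈ C, cj D q x ∈ C := fun q x hx => hC _ x hx
  let q₀ : G ⧸ D := ((1 : G) : G ⧸ D)
  have hcj0 : ∀ x ∈ E, cj D q₀ x = x := fun x hx => cj_one D x fun d hd => hx.2 d hd
  have hcjp : ∀ q : G ⧸ D, q ≠ q₀ → Pos (cj D q θ) := by
    intro q hq
    refine hθp _ fun hd => hq ?_
    rw [← QuotientGroup.out_eq' q]
    refine QuotientGroup.eq.2 ?_
    rw [mul_one]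
    exact D.inv_mem hd
  -- coefficients in `O`
  have hmpO : CoeffIn O (mp D θ) := by
    intro i
    refine hinv _ (CoeffIn.prod _ _ (fun q _ => CoeffIn.X.sub (CoeffIn.const (hcjC q θ hθC))) i) ?_
    intro g
    have := congrArg (fun f => f.coeff i) (mp_map D θ hθD g)
    simpa [Polynomial.coeff_map] using this
  have hipO : ∀ x ∈ E, CoeffIn O (ip D θ x) := by
    intro x hx i
    refine hinv _ (CoeffIn.sum _ _ (fun q _ => (CoeffIn.const (hcjC q x hx.1)).mul
      (CoeffIn.prod _ _ (fun q' _ => CoeffIn.X.sub (CoeffIn.const (hcjC q' θ hθC))))) i) ?_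
    intro g
    have := congrArg (fun f => f.coeff i) (ip_map D θ x hθD hx.2 g)
    simpa [Polynomial.coeff_map] using this
  -- values at `θ`
  set u : N := ∏ q ∈ Finset.univ.erase q₀, (θ - cj D q θ) with hu
  have hipθ : ∀ x ∈ E, (ip D θ x).eval θ = x * u := by
    intro x hx
    unfold ip
    rw [Polynomial.eval_finsetSum, Finset.sum_eq_single q₀]
    · rw [Polynomial.eval_mul, Polynomial.eval_C, hcj0 x hx, Polynomial.eval_prod, hu]
      congr 1
      refine Finset.prod_congr rfl fun q _ => ?_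
      rw [Polynomial.eval_sub, Polynomial.eval_X, Polynomial.eval_C]
    · intro q _ hq
      rw [Polynomial.eval_mul, Polynomial.eval_prod]
      rw [Finset.prod_eq_zero (i := q₀), mul_zero]
      · rw [Finset.mem_erase]; exact ⟨Ne.symm hq, Finset.mem_univ _⟩
      · rw [Polynomial.eval_sub, Polynomial.eval_X, Polynomial.eval_C, hcj0 θ hθE, sub_self]
    · intro hq; exact absurd (Finset.mem_univ _) hq
  have hmpθ : (mp D θ).eval θ = 0 := by
    unfold mp
    rw [Polynomial.eval_prod]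
    refine Finset.prod_eq_zero (Finset.mem_univ q₀) ?_
    rw [Polynomial.eval_sub, Polynomial.eval_X, Polynomial.eval_C, hcj0 θ hθE, sub_self]
  -- the polynomial of `θ` modulo the maximal ideal
  set c : ℕ := (Finset.univ.erase q₀ : Finset (G ⧸ D)).card with hc
  have hδ : CoeffPos Pos (mp D θ - (X - Polynomial.C 1) * X ^ c) := by
    have h1 : mp D θ = (X - Polynomial.C θ) *
        ∏ q ∈ Finset.univ.erase q₀, (X - Polynomial.C (cj D q θ)) := by
      unfold mp
      rw [← Finset.mul_prod_erase Finset.univ _ (Finset.mem_univ q₀), hcj0 θ hθE]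
    have h2 := prod_congr_X h (Finset.univ.erase q₀) (fun q => cj D q θ) fun q hq =>
      ⟨hcjC q θ hθC, hcjp q (Finset.ne_of_mem_erase hq)⟩
    rw [← hc] at h2
    have h3 : mp D θ - (X - Polynomial.C 1) * X ^ c =
        (X - Polynomial.C θ) * (∏ q ∈ Finset.univ.erase q₀, (X - Polynomial.C (cj D q θ)) -
          X ^ c) + X ^ c * Polynomial.C (-(θ - 1)) := by
      rw [h1, Polynomial.C_neg, Polynomial.C_sub]; ring
    rw [h3]
    exact CoeffPos.add h (CoeffPos.mul h (CoeffIn.X.sub (CoeffIn.const hθC)) h2)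
      (CoeffPos.mul h (CoeffIn.X_pow c) (CoeffPos.const h (h.neg hθ1)))
  have hδO : CoeffIn O (mp D θ - (X - Polynomial.C 1) * X ^ c) :=
    hmpO.sub ((CoeffIn.X.sub (CoeffIn.const O.one_mem)).mul (CoeffIn.X_pow c))
  have hkey : θ ^ c * (θ - 1) ∈ mpow O Pos (E : Set N) 1 := by
    set δ := mp D θ - (X - Polynomial.C 1) * X ^ c with hδdef
    have h1 : δ.eval θ = -(θ ^ c * (θ - 1)) := by
      rw [hδdef, Polynomial.eval_sub, hmpθ, Polynomial.eval_mul, Polynomial.eval_sub,
        Polynomial.eval_X, Polynomial.eval_C, Polynomial.eval_pow, Polynomial.eval_X]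
      ring
    have h2 : θ ^ c * (θ - 1) = -(δ.eval θ) := by rw [h1, neg_neg]
    rw [h2, Polynomial.eval_eq_sum_range]
    refine AddSubgroup.neg_mem _ (AddSubgroup.sum_mem _ fun i _ => ?_)
    exact mpow_one (hδO i) (hδ i) (E.pow_mem hθE i)
  -- conclusion
  set b₀ := (ip D θ a).eval 1 with hb₀
  set d₀ := (ip D θ 1).eval 1 with hd₀
  have hevO : ∀ f : N[X], CoeffIn O f → f.eval 1 ∈ O := by
    intro f hf
    rw [Polynomial.eval_eq_sum_range]
    exact O.sum_mem fun i _ => O.mul_mem (hf i) (O.pow_mem O.one_mem _)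
  have hb₀O : b₀ ∈ O := hevO _ (hipO a ha)
  have hd₀O : d₀ ∈ O := hevO _ (hipO 1 E.one_mem)
  obtain ⟨c₁, hc₁, hc₁'⟩ := eval_sub_eval E (fun i => hOE (hipO a ha i)) hθE
  obtain ⟨c₂, hc₂, hc₂'⟩ := eval_sub_eval E (fun i => hOE (hipO 1 E.one_mem i)) hθE
  rw [hipθ a ha] at hc₁'
  rw [hipθ 1 E.one_mem, one_mul] at hc₂'
  have hu1 : Pos (u - 1) := by
    refine h.prod_one _ _ fun q hq => ⟨C.sub_mem hθC (hcjC q θ hθC), ?_⟩
    have : θ - cj D q θ - 1 = (θ - 1) - cj D q θ := by ring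
    rw [this]
    exact h.sub hθ1 (hcjp q (Finset.ne_of_mem_erase hq))
  have hd₀n : ¬ Pos d₀ := by
    intro hp
    apply h.one
    have h1 : (1 : N) = d₀ + (θ - 1) * c₂ - (u - 1) := by rw [← hc₂']; ring
    rw [h1]
    exact h.sub (h.add _ _ hp (h.mul' hθ1 hc₂.1)) hu1
  obtain ⟨y, hy, hdy⟩ := hloc d₀ hd₀O hd₀n
  refine ⟨b₀ * y, O.mul_mem hb₀O hy, θ ^ c, E.pow_mem hθE c, ?_, ?_⟩
  · intro hp
    apply h.one
    have h1 : (1 : N) = θ ^ c - (θ ^ c - 1) := by ring
    rw [h1]
    exact h.sub hp (h.congr_pow hθC hθ1 c)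
  · have h1 : θ ^ c * (a - b₀ * y) = θ ^ c * (θ - 1) * ((c₁ - a * c₂) * y) := by
      have h2 : a - b₀ * y = (a * d₀ - b₀) * y := by
        rw [sub_mul, mul_assoc, hdy, mul_one]
      have h3 : a * d₀ - b₀ = (θ - 1) * (c₁ - a * c₂) := by
        have h4 : d₀ = u - (θ - 1) * c₂ := by rw [← hc₂']; ring
        have h5 : b₀ = a * u - (θ - 1) * c₁ := by rw [← hc₁']; ring
        rw [h4, h5]; ring
      rw [h2, h3]; ring
    rw [h1]
    exact mpow_mul_right E hkey (E.mul_mem (E.sub_mem hc₁ (E.mul_mem ha hc₂)) (hOE hy))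

end Main

end Dec

section Field

variable {N G : Type*} [Field N] [Group G] [Fintype G] [MulSemiringAction G N]
  {O C : Subring N} {Pos : N → Prop}

/-- The localised decomposition ring: quotients `a / s` of elements of `C` fixed by the
decomposition group, `s` outside the maximal ideal. -/
def LocD (G : Type*) [Group G] [MulSemiringAction G N] (h : MaxPred C Pos) : Subring N where
  carrier := {x | ∃ a ∈ FixD C Pos G, ∃ s ∈ FixD C Pos G, ¬ Pos s ∧ x * s = a}
  mul_mem' := by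
    rintro x y ⟨a, ha, s, hs, hsn, hx⟩ ⟨b, hb, t, ht, htn, hy⟩
    refine ⟨a * b, mul_mem ha hb, s * t, mul_mem hs ht, ?_, by rw [← hx, ← hy]; ring⟩
    exact fun hp => htn (h.prime hs.1 ht.1 hp hsn)
  one_mem' := ⟨1, one_mem _, 1, one_mem _, h.one, one_mul 1⟩
  add_mem' := by
    rintro x y ⟨a, ha, s, hs, hsn, hx⟩ ⟨b, hb, t, ht, htn, hy⟩
    refine ⟨a * t + b * s, add_mem (mul_mem ha ht) (mul_mem hb hs), s * t, mul_mem hs ht, ?_,
      by rw [← hx, ← hy]; ring⟩
    exact fun hp => htn (h.prime hs.1 ht.1 hp hsn)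
  zero_mem' := ⟨0, zero_mem _, 1, one_mem _, h.one, zero_mul 1⟩
  neg_mem' := by
    rintro x ⟨a, ha, s, hs, hsn, hx⟩
    exact ⟨-a, neg_mem ha, s, hs, hsn, by rw [← hx]; ring⟩

/-- A fixed element of the localisation of `C` is in the localised decomposition ring. -/
theorem mem_LocD (h : MaxPred C Pos) (hC : ∀ g : G, ∀ a ∈ C, g • a ∈ C) {x a₀ s₀ : N}
    (hx : ∀ g : G, InD C Pos g → g • x = x) (ha : a₀ ∈ C) (hs : s₀ ∈ C) (hsn : ¬ Pos s₀)
    (he : x * s₀ = a₀) : x ∈ LocD G h := by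
  classical
  let Df : Finset G := Finset.univ.filter fun g => InD C Pos g
  have h1D : (1 : G) ∈ Df := by
    rw [Finset.mem_filter]; exact ⟨Finset.mem_univ _, InD.one⟩
  set s : N := ∏ τ ∈ Df, τ • s₀ with hsdef
  have hsC : s ∈ C := C.prod_mem fun τ _ => hC _ _ hs
  have hsfix : ∀ g : G, InD C Pos g → g • s = s := by
    intro g hg
    rw [hsdef, Finset.smul_prod']
    refine Finset.prod_bij' (fun τ _ => g * τ) (fun τ _ => g⁻¹ * τ) ?_ ?_ ?_ ?_ ?_
    · intro τ hτ
      rw [Finset.mem_filter] at hτ ⊢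
      exact ⟨Finset.mem_univ _, hg.mul hC hτ.2⟩
    · intro τ hτ
      rw [Finset.mem_filter] at hτ ⊢
      exact ⟨Finset.mem_univ _, (hg.inv hC).mul hC hτ.2⟩
    · intro τ _; group
    · intro τ _; group
    · intro τ _; rw [mul_smul]
  have hsn' : ¬ Pos s := by
    refine h.prod_not _ _ fun τ hτ => ⟨hC _ _ hs, fun hp => hsn ?_⟩
    rw [Finset.mem_filter] at hτ
    have := (hτ.2.inv hC) _ (hC _ _ hs) hp
    rwa [inv_smul_smul] at this
  refine ⟨x * s, ⟨?_, ?_⟩, s, ⟨hsC, hsfix⟩, hsn', rfl⟩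
  · have : x * s = a₀ * ∏ τ ∈ Df.erase 1, τ • s₀ := by
      rw [hsdef, ← Finset.mul_prod_erase Df _ h1D, one_smul, ← mul_assoc, he]
    rw [this]
    exact C.mul_mem ha (C.prod_mem fun τ _ => hC _ _ hs)
  · intro g hg
    rw [smul_mul', hx g hg, hsfix g hg]

/-- **The decomposition ring is residually trivial to every order**: every element of the localised
decomposition ring is congruent to an element of `O` modulo the `n`-th power of the maximal ideal
of `O`. -/
theorem dec_approx (h : MaxPred C Pos) (hC : ∀ g : G, ∀ a ∈ C, g • a ∈ C) (hOC : O ≤ C)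
    (hfix : ∀ g : G, ∀ x ∈ O, g • x = x)
    (hinv : ∀ x ∈ C, (∀ g : G, g • x = x) → x ∈ O)
    (hloc : ∀ x ∈ O, ¬ Pos x → ∃ y ∈ O, x * y = 1) (n : ℕ) (x : N) (hx : x ∈ LocD G h) :
    ∃ b ∈ O, x - b ∈ mpow O Pos (LocD G h : Set N) n := by
  classical
  set E : Subring N := FixD C Pos G with hE
  set L : Subring N := LocD G h with hL
  have hEL : E ≤ L := fun a ha => ⟨a, ha, 1, one_mem _, h.one, mul_one a⟩
  have hOE : O ≤ E := fun a ha => ⟨hOC ha, fun g _ => hfix g a ha⟩
  -- inverse of elements outside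
  have hinvL : ∀ s ∈ E, ¬ Pos s → s⁻¹ ∈ L := by
    intro s hs hsn
    have hs0 : s ≠ 0 := by rintro rfl; exact hsn h.zero
    exact ⟨1, one_mem _, s, hs, hsn, inv_mul_cancel₀ hs0⟩
  have hmono : ∀ z ∈ mpow O Pos (E : Set N) 1, z ∈ mpow O Pos (L : Set N) 1 := by
    intro z hz
    refine AddSubgroup.closure_mono ?_ hz
    rintro _ ⟨m, hm, c, hc, rfl⟩
    exact ⟨m, hm, c, hEL hc, rfl⟩
  have hposE : ∀ z ∈ mpow O Pos (E : Set N) 1, Pos z := by
    intro z hz
    unfold mpow at hz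
    induction hz using AddSubgroup.closure_induction with
    | mem z hz =>
      obtain ⟨m, hm, c, hc, rfl⟩ := hz
      rw [Fin.prod_univ_one]
      exact h.mul' (hm 0).2 hc.1
    | zero => exact h.zero
    | add a b _ _ ha hb => exact h.add _ _ ha hb
    | neg a _ ha => exact h.neg ha
  have hfirst : ∀ a ∈ E, ∃ b ∈ O, a - b ∈ mpow O Pos (L : Set N) 1 ∧ Pos (a - b) := by
    intro a ha
    obtain ⟨b, hb, s, hs, hsn, hsb⟩ := dec_first h hC hOC hfix hinv hloc a ha
    have hs0 : s ≠ 0 := by rintro rfl; exact hsn h.zero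
    refine ⟨b, hb, ?_, ?_⟩
    · have h1 : a - b = s * (a - b) * s⁻¹ := by field_simp
      rw [h1]
      exact mpow_mul_right L (hmono _ hsb) (hinvL s hs hsn)
    · exact h.prime hs.1 (C.sub_mem ha.1 (hOC hb)) (hposE _ hsb) hsn
  refine mpow_iter L ?_ n x hx
  rintro x ⟨a, ha, t, ht, htn, hxt⟩
  obtain ⟨b₁, hb₁, hb₁', -⟩ := hfirst a ha
  obtain ⟨b₂, hb₂, hb₂', hb₂p⟩ := hfirst t ht
  have hb₂n : ¬ Pos b₂ := by
    intro hp
    apply htn
    have : t = (t - b₂) + b₂ := by ring
    rw [this]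
    exact h.add _ _ hb₂p hp
  obtain ⟨y, hy, hby⟩ := hloc b₂ hb₂ hb₂n
  have ht0 : t ≠ 0 := by rintro rfl; exact htn h.zero
  refine ⟨b₁ * y, O.mul_mem hb₁ hy, ?_⟩
  have h1 : x - b₁ * y = (a - b₁) * t⁻¹ + (t - b₂) * (-(b₁ * y * t⁻¹)) := by
    have hx' : x = a * t⁻¹ := by rw [← hxt, mul_assoc, mul_inv_cancel₀ ht0, mul_one]
    rw [hx']
    have h2 : b₂ * y * (b₁ * t⁻¹) = b₁ * t⁻¹ := by rw [hby, one_mul]
    have h3 : t * t⁻¹ = 1 := mul_inv_cancel₀ ht0
    linear_combination b₁ * y * h3 - h2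
  rw [h1]
  have hyL : y ∈ L := hEL (hOE hy)
  have hb₁L : b₁ ∈ L := hEL (hOE hb₁)
  have htL : t⁻¹ ∈ L := hinvL t ht htn
  exact AddSubgroup.add_mem _ (mpow_mul_right L hb₁' htL)
    (mpow_mul_right L hb₂' (L.neg_mem (L.mul_mem (L.mul_mem hb₁L hyL) htL)))

end Field

end Pool.Agent.ALLE
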