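import Mathlib

/-!
Etale tools, part 4: derivations extend uniquely along formally etale maps; stability version for
rings inside a field.
-/

namespace Pool.Agent.ALLE

open TensorProduct KaehlerDifferential

section Deriv

variable {k A B : Type*} [CommRing k] [CommRing A] [CommRing B] [Algebra k A] [Algebra k B]
  [Algebra A B] [IsScalarTower k A B]

/-- A derivation `A -> M` (`M` a `B`-module) extends to `B` when `B` is formally etale over `A`. -/
theorem exists_derivation_extension [Algebra.FormallyEtale A B] {M : Type*} [AddCommGroup M]
    [Module k M] [Module A M] [Module B M] [IsScalarTower k A M] [IsScalarTower A B M]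
    [IsScalarTower k B M] (d : Derivation k A M) :
    ∃ d' : Derivation k B M, ∀ a, d' (algebraMap A B a) = d a := by
  let e := KaehlerDifferential.tensorKaehlerEquivOfFormallyEtale k A B
  let f : Ω[A⁄k] →ₗ[A] M := d.liftKaehlerDifferential
  let g : B ⊗[A] Ω[A⁄k] →ₗ[B] M := TensorProduct.AlgebraTensorModule.lift
    { toFun := fun b => b • f
      map_add' := fun x y => add_smul x y f
      map_smul' := fun c x => by
        ext z
        simp only [smul_eq_mul, RingHom.id_apply, mul_smul] }
  let h : Ω[B⁄k] →ₗ[B] M := g ∘ₗ e.symm.toLinearMap
  refine ⟨h.compDer (KaehlerDifferential.D k B), fun a => ?_⟩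
  have h1 : e.symm (KaehlerDifferential.D k B (algebraMap A B a)) =
      1 ⊗ₜ KaehlerDifferential.D k A a :=
    KaehlerDifferential.tensorKaehlerEquivOfFormallyEtale_symm_D_algebraMap k A B a
  change g (e.symm (KaehlerDifferential.D k B (algebraMap A B a))) = d a
  rw [h1]
  change (1 : B) • f (KaehlerDifferential.D k A a) = d a
  rw [one_smul]
  exact Derivation.liftKaehlerDifferential_comp_D d a

omit [IsScalarTower k A B] in
/-- Two derivations of `B` agreeing on `A` are equal when `B` is formally unramified over `A`. -/
theorem derivation_ext [Algebra.FormallyUnramified A B] {M : Type*} [AddCommGroup M]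
    [Module k M] [Module A M] [Module B M] [IsScalarTower k A M] [IsScalarTower A B M]
    [IsScalarTower k B M] (d₁ d₂ : Derivation k B M)
    (h : ∀ a, d₁ (algebraMap A B a) = d₂ (algebraMap A B a)) (b : B) : d₁ b = d₂ b := by
  let δ : Derivation A B M :=
    { toFun := fun b => d₁ b - d₂ b
      map_add' := fun x y => by rw [map_add, map_add]; abel
      map_smul' := fun a x => by
        rw [Algebra.smul_def, Derivation.leibniz, Derivation.leibniz, h a]
        simp only [RingHom.id_apply, algebraMap_smul]
        rw [smul_sub]
        abel
      map_one_eq_zero' := by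
        change d₁ 1 - d₂ 1 = 0
        rw [Derivation.map_one_eq_zero, Derivation.map_one_eq_zero, sub_self]
      leibniz' := fun x y => by
        change d₁ (x * y) - d₂ (x * y) = x • (d₁ y - d₂ y) + y • (d₁ x - d₂ x)
        rw [Derivation.leibniz, Derivation.leibniz, smul_sub, smul_sub]
        abel }
  have hs : Subsingleton (Ω[B⁄A]) := Algebra.FormallyUnramified.subsingleton_kaehlerDifferential
  have h1 : δ b = δ.liftKaehlerDifferential (KaehlerDifferential.D A B b) :=
    (Derivation.liftKaehlerDifferential_comp_D δ b).symm
  have h2 : δ b = 0 := by
    rw [h1, Subsingleton.elim (KaehlerDifferential.D A B b) 0, map_zero]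
  exact sub_eq_zero.1 h2

end Deriv

section Stable

variable {k A B L : Type*} [CommRing k] [CommRing A] [CommRing B] [CommRing L]
  [Algebra k A] [Algebra k B] [Algebra k L] [Algebra A B] [Algebra A L] [Algebra B L]
  [IsScalarTower k A B] [IsScalarTower k A L] [IsScalarTower k B L] [IsScalarTower A B L]

/-- **Stability.** `A -> B` formally etale, `B -> L` injective, `D` a derivation of `L` which maps
`A` into `B`: then `D` maps `B` into `B`. -/
theorem derivation_stable [Algebra.FormallyEtale A B]
    (hinj : Function.Injective (algebraMap B L)) (D : Derivation k L L)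
    (hA : ∀ a : A, ∃ b : B, D (algebraMap A L a) = algebraMap B L b) (b : B) :
    ∃ b' : B, D (algebraMap B L b) = algebraMap B L b' := by
  choose d₀ hd₀ using hA
  have hkA : ∀ (c : k) (x : A), algebraMap A L (c • x) = c • algebraMap A L x :=
    fun c x => map_smul (IsScalarTower.toAlgHom k A L) c x
  have hkB : ∀ (c : k) (x : B), algebraMap B L (c • x) = c • algebraMap B L x :=
    fun c x => map_smul (IsScalarTower.toAlgHom k B L) c x
  let d : Derivation k A B :=
    { toFun := d₀
      map_add' := fun x y => hinj (by rw [map_add, ← hd₀, ← hd₀, ← hd₀, map_add, map_add])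
      map_smul' := fun c x => hinj (by
        rw [← hd₀, RingHom.id_apply, hkA, hkB, D.map_smul, hd₀])
      map_one_eq_zero' := hinj (by
        change algebraMap B L (d₀ 1) = _
        rw [← hd₀, map_one, map_zero, Derivation.map_one_eq_zero])
      leibniz' := fun x y => hinj (by
        change algebraMap B L (d₀ (x * y)) = algebraMap B L (x • d₀ y + y • d₀ x)
        rw [← hd₀, map_mul, Derivation.leibniz, map_add, Algebra.smul_def x, Algebra.smul_def y,
          map_mul, map_mul, ← hd₀, ← hd₀, ← IsScalarTower.algebraMap_apply A B L,
          ← IsScalarTower.algebraMap_apply A B L, smul_eq_mul, smul_eq_mul]) }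
  obtain ⟨d', hd'⟩ := exists_derivation_extension (k := k) (A := A) (B := B) (M := B) d
  -- the two derivations `B -> L`
  let δ₁ : Derivation k B L :=
    { toFun := fun x => algebraMap B L (d' x)
      map_add' := fun x y => by rw [map_add, map_add]
      map_smul' := fun c x => by
        rw [RingHom.id_apply, d'.map_smul, hkB]
      map_one_eq_zero' := by
        change algebraMap B L (d' 1) = 0
        rw [Derivation.map_one_eq_zero, map_zero]
      leibniz' := fun x y => by
        change algebraMap B L (d' (x * y)) = x • algebraMap B L (d' y) + y • algebraMap B L (d' x)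
        rw [Derivation.leibniz, map_add, smul_eq_mul, smul_eq_mul, map_mul, map_mul,
          Algebra.smul_def, Algebra.smul_def] }
  let δ₂ : Derivation k B L :=
    { toFun := fun x => D (algebraMap B L x)
      map_add' := fun x y => by rw [map_add, map_add]
      map_smul' := fun c x => by
        rw [RingHom.id_apply, hkB, D.map_smul]
      map_one_eq_zero' := by
        change D (algebraMap B L 1) = 0
        rw [map_one, Derivation.map_one_eq_zero]
      leibniz' := fun x y => by
        change D (algebraMap B L (x * y)) = x • D (algebraMap B L y) + y • D (algebraMap B L x)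
        rw [map_mul, Derivation.leibniz, smul_eq_mul, smul_eq_mul, Algebra.smul_def,
          Algebra.smul_def] }
  have h := derivation_ext (k := k) (A := A) (B := B) (M := L) δ₁ δ₂ (fun a => by
    change algebraMap B L (d' (algebraMap A B a)) = D (algebraMap B L (algebraMap A B a))
    rw [hd', ← IsScalarTower.algebraMap_apply A B L]
    exact (hd₀ a).symm) b
  exact ⟨d' b, h.symm⟩

end Stable

end Pool.Agent.ALLE
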