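import Mathlib

/-!
Etale tools, part 1: the Jacobian criterion.

k -> A -> B with B formally smooth over k.  If B (x)_A Om(A/k) -> Om(B/k) is bijective, then B is
formally etale over A.  If Om(A/k) is spanned by the D a_i and the D(a_i) form a basis of Om(B/k),
the map is bijective.
-/

namespace Pool.Agent.ALLE

open TensorProduct KaehlerDifferential

section Jac

variable {k A B : Type*} [CommRing k] [CommRing A] [CommRing B]
  [Algebra k A] [Algebra A B] [Algebra k B] [IsScalarTower k A B]

/-- The Jacobian criterion, abstract form. -/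
theorem formallyEtale_of_bijective [Algebra.FormallySmooth k B]
    (h : Function.Bijective (KaehlerDifferential.mapBaseChange k A B)) :
    Algebra.FormallyEtale A B := by
  rw [Algebra.formallyEtale_iff]
  constructor
  · have h1 := KaehlerDifferential.exact_mapBaseChange_map k A B
    have h2 := KaehlerDifferential.map_surjective k A B
    refine ⟨fun x y => ?_⟩
    have hz : ∀ x : Ω[B⁄A], x = 0 := by
      intro x
      obtain ⟨x', rfl⟩ := h2 x
      obtain ⟨x'', rfl⟩ := h.2 x'
      exact h1.apply_apply_eq_zero x''
    rw [hz x, hz y]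
  · have h1 := Algebra.H1Cotangent.exact_map_δ k A B
    have h2 := Algebra.H1Cotangent.exact_δ_mapBaseChange k A B
    have h3 : Subsingleton (Algebra.H1Cotangent k B) :=
      ((Algebra.formallySmooth_iff k B).1 inferInstance).2
    refine ⟨fun x y => ?_⟩
    have hz : ∀ x : Algebra.H1Cotangent A B, x = 0 := by
      intro x
      have hx : Algebra.H1Cotangent.δ k A B x = 0 := by
        apply h.1
        rw [map_zero]
        exact h2.apply_apply_eq_zero x
      obtain ⟨x', rfl⟩ := (h1 x).1 hx
      rw [Subsingleton.elim x' 0, map_zero]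
    rw [hz x, hz y]

/-- Spanning on the base and basis on the top give bijectivity. -/
theorem bijective_of_basis {ι : Type*} (a : ι → A)
    (hspan : Submodule.span A (Set.range fun i => D k A (a i)) = ⊤)
    (hlin : LinearIndependent B fun i => D k B (algebraMap A B (a i)))
    (htop : Submodule.span B (Set.range fun i => D k B (algebraMap A B (a i))) = ⊤) :
    Function.Bijective (KaehlerDifferential.mapBaseChange k A B) := by
  classical
  -- elements of the tensor product are sums of b_i (x) D a_i
  have hT : ∀ x : B ⊗[A] Ω[A⁄k], ∃ c : ι →₀ B, x = c.sum fun i b => b ⊗ₜ[A] D k A (a i) := by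
    intro x
    have : x ∈ Submodule.span B (Set.range fun i => (1 : B) ⊗ₜ[A] D k A (a i)) := by
      induction x using TensorProduct.induction_on with
      | zero => exact Submodule.zero_mem _
      | add x y hx hy => exact Submodule.add_mem _ hx hy
      | tmul b w =>
        have hw : w ∈ Submodule.span A (Set.range fun i => D k A (a i)) := by
          rw [hspan]; trivial
        have : (1 : B) ⊗ₜ[A] w ∈ Submodule.span B (Set.range fun i => (1 : B) ⊗ₜ[A] D k A (a i)) := by
          induction hw using Submodule.span_induction with
          | mem w hw =>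
            obtain ⟨i, rfl⟩ := hw
            exact Submodule.subset_span ⟨i, rfl⟩
          | zero => rw [TensorProduct.tmul_zero]; exact Submodule.zero_mem _
          | add u v _ _ hu hv => rw [TensorProduct.tmul_add]; exact Submodule.add_mem _ hu hv
          | smul s u _ hu =>
            rw [TensorProduct.tmul_smul]
            have : (s • ((1 : B) ⊗ₜ[A] u)) = (algebraMap A B s) • ((1 : B) ⊗ₜ[A] u) := by
              rw [algebraMap_smul]
            rw [this]
            exact Submodule.smul_mem _ _ hu
        have h2 : b ⊗ₜ[A] w = b • ((1 : B) ⊗ₜ[A] w) := by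
          rw [TensorProduct.smul_tmul', smul_eq_mul, mul_one]
        rw [h2]
        exact Submodule.smul_mem _ _ this
    rw [Finsupp.mem_span_range_iff_exists_finsupp] at this
    obtain ⟨c, hc⟩ := this
    refine ⟨c, ?_⟩
    rw [← hc]
    refine Finsupp.sum_congr fun i _ => ?_
    rw [TensorProduct.smul_tmul', smul_eq_mul, mul_one]
  have hev : ∀ c : ι →₀ B, KaehlerDifferential.mapBaseChange k A B
      (c.sum fun i b => b ⊗ₜ[A] D k A (a i)) = c.sum fun i b => b • D k B (algebraMap A B (a i)) := by
    intro c
    rw [Finsupp.sum, map_sum, Finsupp.sum]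
    refine Finset.sum_congr rfl fun i _ => ?_
    rw [KaehlerDifferential.mapBaseChange_tmul, KaehlerDifferential.map_D]
  constructor
  · rw [injective_iff_map_eq_zero]
    intro x hx
    obtain ⟨c, rfl⟩ := hT x
    rw [hev] at hx
    have hc : c = 0 := by
      rw [linearIndependent_iff] at hlin
      exact hlin c (by rw [Finsupp.linearCombination_apply]; exact hx)
    rw [hc, Finsupp.sum_zero_index]
  · intro y
    have hy : y ∈ Submodule.span B (Set.range fun i => D k B (algebraMap A B (a i))) := by
      rw [htop]; trivial
    rw [Finsupp.mem_span_range_iff_exists_finsupp] at hy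
    obtain ⟨c, hc⟩ := hy
    exact ⟨c.sum fun i b => b ⊗ₜ[A] D k A (a i), by rw [hev, hc]⟩

/-- The Jacobian criterion with coordinates: `a i` in `A` with `D a_i` spanning `Om(A/k)` and a
basis of `Om(B/k)`. -/
theorem formallyEtale_of_basis [Algebra.FormallySmooth k B] {ι : Type*} (a : ι → A)
    (hspan : Submodule.span A (Set.range fun i => D k A (a i)) = ⊤)
    (hlin : LinearIndependent B fun i => D k B (algebraMap A B (a i)))
    (htop : Submodule.span B (Set.range fun i => D k B (algebraMap A B (a i))) = ⊤) :
    Algebra.FormallyEtale A B :=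
  formallyEtale_of_bijective (bijective_of_basis a hspan hlin htop)

/-- The same when `Om(B/k)` has a basis `v` indexed by the same finite type and the transition
matrix `J` (`D a_i = sum_j J i j v_j`) is invertible. -/
theorem formallyEtale_of_det [Algebra.FormallySmooth k B] {ι : Type*} [Fintype ι] [DecidableEq ι]
    (a : ι → A) (hspan : Submodule.span A (Set.range fun i => D k A (a i)) = ⊤)
    (v : Module.Basis ι B (Ω[B⁄k])) (J : Matrix ι ι B)
    (hJ : ∀ i, D k B (algebraMap A B (a i)) = ∑ j, J i j • v j) (hu : IsUnit J.det) :
    Algebra.FormallyEtale A B := by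
  have hJ' : IsUnit J := (Matrix.isUnit_iff_isUnit_det _).2 hu
  set w : ι → Ω[B⁄k] := fun i => D k B (algebraMap A B (a i)) with hw
  have hinv : ∀ i, v i = ∑ j, (J⁻¹) i j • w j := by
    intro i
    have h1 : ∑ j, (J⁻¹) i j • w j = ∑ j, ∑ l, ((J⁻¹) i j * J j l) • v l := by
      refine Finset.sum_congr rfl fun j _ => ?_
      rw [hw]; simp only
      rw [hJ j, Finset.smul_sum]
      refine Finset.sum_congr rfl fun l _ => ?_
      rw [smul_smul]
    rw [h1, Finset.sum_comm]
    have h2 : ∀ l, ∑ j, ((J⁻¹) i j * J j l) • v l = ((1 : Matrix ι ι B) i l) • v l := by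
      intro l
      rw [← Finset.sum_smul]
      congr 1
      have := Matrix.nonsing_inv_mul J hu
      rw [← this, Matrix.mul_apply]
    rw [Finset.sum_congr rfl fun l _ => h2 l]
    rw [Finset.sum_eq_single i]
    · rw [Matrix.one_apply_eq, one_smul]
    · intro l _ hl
      rw [Matrix.one_apply_ne (Ne.symm hl), zero_smul]
    · intro h; exact absurd (Finset.mem_univ _) h
  have htop : Submodule.span B (Set.range w) = ⊤ := by
    rw [eq_top_iff, ← v.span_eq, Submodule.span_le]
    rintro _ ⟨i, rfl⟩
    rw [SetLike.mem_coe, hinv i]
    exact Submodule.sum_mem _ fun j _ => Submodule.smul_mem _ _ (Submodule.subset_span ⟨j, rfl⟩)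
  have hlin : LinearIndependent B w := by
    rw [Fintype.linearIndependent_iff]
    intro g hg i
    have h0 : ∑ l, (∑ j, g j * J j l) • v l = 0 := by
      rw [← hg]
      have : ∀ j, g j • w j = ∑ l, (g j * J j l) • v l := by
        intro j
        rw [hw]; simp only
        rw [hJ j, Finset.smul_sum]
        refine Finset.sum_congr rfl fun l _ => ?_
        rw [smul_smul]
      rw [Finset.sum_congr rfl fun j _ => this j, Finset.sum_comm]
      refine Finset.sum_congr rfl fun l _ => ?_
      rw [← Finset.sum_smul]
    have h1 : ∀ l, (Matrix.vecMul g J) l = 0 := by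
      intro l
      have := Fintype.linearIndependent_iff.1 v.linearIndependent _ h0 l
      simpa [Matrix.vecMul, dotProduct] using this
    have h2 : Matrix.vecMul g J = 0 := funext h1
    have h3 : Matrix.vecMul (Matrix.vecMul g J) J⁻¹ = g := by
      rw [Matrix.vecMul_vecMul, Matrix.mul_nonsing_inv J hu, Matrix.vecMul_one]
    rw [h2, Matrix.zero_vecMul] at h3
    rw [← h3]; rfl
  exact formallyEtale_of_basis a hspan hlin htop

end Jac

end Pool.Agent.ALLE
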