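import Mathlib

/-!
Etale tools, part 2: an etale algebra over an integrally closed domain is integrally closed, in the
form needed for rings inside a big field.

`R` integrally closed domain, `S` etale over `R`, `S -> L` a map to a field which is injective on
`R`.  Then every quotient of elements of the image which is integral over the image lies in the
image.
-/

namespace Pool.Agent.ALLE

open TensorProduct

section Normal

/-- Elements of `S (x)_R K` (`K = Frac R`) integral over `S` come from `S`. -/
theorem exists_of_isIntegral_tensor (R S K : Type*) [CommRing R] [IsDomain R] [IsIntegrallyClosed R]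
    [CommRing S] [Algebra R S] [Algebra.Smooth R S] [Field K] [Algebra R K] [IsFractionRing R K]
    (y : S ⊗[R] K) (hy : IsIntegral S y) : ∃ s : S, y = s ⊗ₜ[R] (1 : K) := by
  obtain ⟨z, hz⟩ := (TensorProduct.toIntegralClosure_bijective_of_smooth
    (R := R) (S := S) (B := K)).2 ⟨y, hy⟩
  have hz' : y = ((TensorProduct.toIntegralClosure R S K z : integralClosure S (S ⊗[R] K)) :
      S ⊗[R] K) := by rw [hz]
  rw [hz']
  clear hz hz'
  induction z using TensorProduct.induction_on with
  | zero => exact ⟨0, by simp⟩
  | add x y hx hy =>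
    obtain ⟨s, hs⟩ := hx
    obtain ⟨t, ht⟩ := hy
    refine ⟨s + t, ?_⟩
    rw [map_add, Subalgebra.coe_add, hs, ht, TensorProduct.add_tmul]
  | tmul s b =>
    obtain ⟨r, hr⟩ := (IsIntegrallyClosed.isIntegral_iff (R := R) (K := K)).1 b.2
    refine ⟨r • s, ?_⟩
    have : ((TensorProduct.toIntegralClosure R S K (s ⊗ₜ[R] b) :
        integralClosure S (S ⊗[R] K)) : S ⊗[R] K) = s ⊗ₜ[R] (b : K) := by
      simp [TensorProduct.toIntegralClosure]
    rw [this, ← hr, Algebra.algebraMap_eq_smul_one, TensorProduct.tmul_smul,
      TensorProduct.smul_tmul']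

/-- In a finite etale algebra `E` over a field, mapping to a field `L` (over `K`): there is an
idempotent `e` mapping to `1` such that every element not mapping to zero is invertible on `e E` and
the others are killed by `e`. -/
theorem exists_idem (K E L : Type*) [Field K] [CommRing E] [Algebra K E] [Algebra.Etale K E]
    [Field L] (φ : E →+* L) :
    ∃ e : E, e * e = e ∧ φ e = 1 ∧ (∀ y, φ y = 0 → e * y = 0) ∧
      ∀ y, φ y ≠ 0 → ∃ z, e * y * z = e := by
  classical
  obtain ⟨I, hI, A, hf, ha, e, hE⟩ := (Algebra.Etale.iff_exists_algEquiv_prod K E).1 inferInstance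
  have := Fintype.ofFinite I
  -- the idempotents
  set u : I → E := fun i => e.symm (Pi.single i 1) with hu
  have hmul : ∀ i (y : E), u i * y = e.symm (Pi.single i (e y i)) := by
    intro i y
    apply e.injective
    rw [map_mul, hu]
    simp only [AlgEquiv.apply_symm_apply]
    funext j
    by_cases hj : j = i
    · subst hj; simp
    · simp [hj]
  have hsum : ∑ i, u i = 1 := by
    apply e.injective
    rw [map_sum, map_one, hu]
    simp only [AlgEquiv.apply_symm_apply]
    exact Finset.univ_sum_single (fun _ => (1 : _))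
  have hφ : ∃ i, φ (u i) ≠ 0 := by
    by_contra h
    push Not at h
    have : φ 1 = 0 := by rw [← hsum, map_sum]; exact Finset.sum_eq_zero fun i _ => h i
    rw [map_one] at this
    exact one_ne_zero this
  obtain ⟨i, hi⟩ := hφ
  have hidem : u i * u i = u i := by
    rw [hmul, hu]
    simp
  have h1 : φ (u i) = 1 := by
    have : φ (u i) * φ (u i) = φ (u i) := by rw [← map_mul, hidem]
    have h2 : φ (u i) * (φ (u i) - 1) = 0 := by rw [mul_sub, this, mul_one, sub_self]
    rcases mul_eq_zero.1 h2 with h3 | h3
    · exact absurd h3 hi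
    · exact sub_eq_zero.1 h3
  have hinv : ∀ y, e y i ≠ 0 → u i * y * e.symm (Pi.single i ((e y i)⁻¹)) = u i := by
    intro y hy
    rw [hmul, ← map_mul]
    congr 1
    funext j
    by_cases hj : j = i
    · subst hj; simp [hy]
    · simp [hj]
  refine ⟨u i, hidem, h1, ?_, ?_⟩
  · intro y hy
    by_contra hne
    have hy0 : e y i ≠ 0 := by
      intro h0
      apply hne
      rw [hmul, h0, Pi.single_zero, map_zero]
    have h3 := hinv y hy0
    have h4 : φ (u i * y * e.symm (Pi.single i ((e y i)⁻¹))) = 0 := by
      rw [map_mul, map_mul, hy, mul_zero, zero_mul]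
    rw [h3, h1] at h4
    exact one_ne_zero h4
  · intro y hy
    refine ⟨_, hinv y ?_⟩
    intro h0
    apply hy
    have : u i * y = 0 := by rw [hmul, h0, Pi.single_zero, map_zero]
    have h3 : φ (u i * y) = 0 := by rw [this, map_zero]
    rwa [map_mul, h1, one_mul] at h3

/-- **Normality.** `R` integrally closed domain, `S` etale over `R`, `S -> L` a map to a field,
injective on `R`: a quotient of elements of the image which is integral over the image lies in the
image. -/
theorem mem_range_of_isIntegral (R S L : Type*) [CommRing R] [IsDomain R] [IsIntegrallyClosed R]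
    [CommRing S] [Algebra R S] [Algebra.Etale R S] [Field L] [Algebra R L] [Algebra S L]
    [IsScalarTower R S L] (hinj : Function.Injective (algebraMap R L)) (a b : S)
    (hb : algebraMap S L b ≠ 0) (hint : IsIntegral S (algebraMap S L a / algebraMap S L b)) :
    ∃ s : S, algebraMap S L s = algebraMap S L a / algebraMap S L b := by
  classical
  let K := FractionRing R
  let jK : K →ₐ[R] L := IsFractionRing.liftAlgHom (g := Algebra.ofId R L) hinj
  let φ : S ⊗[R] K →ₐ[R] L := Algebra.TensorProduct.lift (IsScalarTower.toAlgHom R S L) jK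
    (fun _ _ => Commute.all _ _)
  have hφ1 : ∀ s : S, φ (s ⊗ₜ[R] (1 : K)) = algebraMap S L s := by
    intro s
    change (Algebra.TensorProduct.lift (IsScalarTower.toAlgHom R S L) jK
      (fun _ _ => Commute.all _ _)) (s ⊗ₜ[R] (1 : K)) = algebraMap S L s
    rw [Algebra.TensorProduct.lift_tmul, map_one, mul_one]
    rfl
  -- the algebra over the field
  let : Algebra K (S ⊗[R] K) := Algebra.TensorProduct.rightAlgebra
  have : Algebra.Etale K (S ⊗[R] K) :=
    Algebra.Etale.of_equiv (Algebra.TensorProduct.commRight R K S)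
  obtain ⟨e, he, hφe, hker, hinvt⟩ := exists_idem K (S ⊗[R] K) L (φ : S ⊗[R] K →+* L)
  -- `e` comes from `S`
  have heint : IsIntegral S e := by
    refine ⟨Polynomial.X ^ 2 - Polynomial.X, ?_, ?_⟩
    · monicity!
    · simp [pow_two, he]
  obtain ⟨s₀, hs₀⟩ := exists_of_isIntegral_tensor R S K e heint
  -- the inverse of `b` on `e`
  obtain ⟨z, hz⟩ := hinvt (b ⊗ₜ[R] (1 : K)) (by rw [RingHom.coe_coe, hφ1]; exact hb)
  set y : S ⊗[R] K := e * (a ⊗ₜ[R] (1 : K)) * z with hy
  have hφy : φ y = algebraMap S L a / algebraMap S L b := by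
    have h1 : φ e * (algebraMap S L b) * φ z = φ e := by
      have := congrArg (fun t => φ t) hz
      simp only [map_mul] at this
      rwa [hφ1] at this
    have h2 : φ e = 1 := hφe
    rw [h2, one_mul] at h1
    rw [hy, map_mul, map_mul, h2, one_mul, hφ1, div_eq_mul_inv]
    congr 1
    exact eq_inv_of_mul_eq_one_right h1
  have hey : e * y = y := by rw [hy, ← mul_assoc, ← mul_assoc, he]
  -- integrality
  obtain ⟨f, hfm, hf⟩ := hint
  have hzero : e * Polynomial.eval₂ (algebraMap S (S ⊗[R] K)) y f = 0 := by
    apply hker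
    rw [Polynomial.hom_eval₂]
    have : ((φ : S ⊗[R] K →+* L).comp (algebraMap S (S ⊗[R] K))) = algebraMap S L := by
      ext s
      rw [RingHom.comp_apply, RingHom.coe_coe]
      exact hφ1 s
    rw [this]
    have h3 : (φ : S ⊗[R] K →+* L) y = algebraMap S L a / algebraMap S L b := hφy
    rw [h3]
    exact hf
  have hyint : IsIntegral S y := by
    refine ⟨Polynomial.X * f, Polynomial.monic_X.mul hfm, ?_⟩
    rw [Polynomial.eval₂_mul, Polynomial.eval₂_X, ← hey, mul_comm e y, mul_assoc]
    rw [mul_comm e y] at hey
    rw [hey, hzero, mul_zero]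
  obtain ⟨s, hs⟩ := exists_of_isIntegral_tensor R S K y hyint
  exact ⟨s, by rw [← hφ1, ← hs, hφy]⟩

/-- An etale domain over an integrally closed domain is integrally closed. -/
theorem isIntegrallyClosed_of_etale (R S : Type*) [CommRing R] [IsDomain R] [IsIntegrallyClosed R]
    [CommRing S] [IsDomain S] [Algebra R S] [Algebra.Etale R S] : IsIntegrallyClosed S := by
  have hinj : Function.Injective (algebraMap R S) := by
    rw [injective_iff_map_eq_zero]
    intro r hr
    by_contra hr0
    have h1 : Function.Injective (LinearMap.lTensor S (LinearMap.mulLeft R r)) :=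
      Module.Flat.lTensor_preserves_injective_linearMap (M := S) _
        (fun x y hxy => mul_left_cancel₀ hr0 hxy)
    have h2 : LinearMap.lTensor S (LinearMap.mulLeft R r) ((1 : S) ⊗ₜ[R] (1 : R)) = 0 := by
      rw [LinearMap.lTensor_tmul, LinearMap.mulLeft_apply, mul_one]
      have : (1 : S) ⊗ₜ[R] r = (r • (1 : S)) ⊗ₜ[R] (1 : R) := by
        rw [TensorProduct.smul_tmul, smul_eq_mul, mul_one]
      rw [this, Algebra.smul_def, hr, zero_mul, TensorProduct.zero_tmul]
    have h3 : (1 : S) ⊗ₜ[R] (1 : R) = 0 := h1 (by rw [h2, map_zero])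
    have h4 := congrArg (TensorProduct.rid R S) h3
    rw [TensorProduct.rid_tmul, one_smul, map_zero] at h4
    exact one_ne_zero h4
  let L := FractionRing S
  rw [isIntegrallyClosed_iff L]
  intro x hx
  obtain ⟨a, b, hb, rfl⟩ := IsFractionRing.div_surjective (A := S) x
  have hRL : Function.Injective (algebraMap R L) := by
    rw [IsScalarTower.algebraMap_eq R S L]
    exact (IsFractionRing.injective S L).comp hinj
  exact mem_range_of_isIntegral R S L hRL a b
    (IsFractionRing.to_map_ne_zero_of_mem_nonZeroDivisors hb) hx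

/-- **Compositum.** `A` integrally closed, `B` etale over `O`, both mapping to a field `L`, `A`
injectively: the subring of `L` generated by the images of `A` and `B` is integrally closed. -/
theorem compositum_mem (O A B L : Type*) [CommRing O] [CommRing A] [IsDomain A]
    [IsIntegrallyClosed A] [Algebra O A] [CommRing B] [Algebra O B] [Algebra.Etale O B] [Field L]
    [Algebra O L] [Algebra A L] [Algebra B L] [IsScalarTower O A L] [IsScalarTower O B L]
    (hinj : Function.Injective (algebraMap A L)) (T : Subring L)
    (hT : T = (algebraMap A L).range ⊔ (algebraMap B L).range) (a b : L) (ha : a ∈ T) (hb : b ∈ T)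
    (hb0 : b ≠ 0) (hint : IsIntegral T (a / b)) : a / b ∈ T := by
  let φ : A ⊗[O] B →ₐ[A] L := Algebra.TensorProduct.lift (Algebra.ofId A L)
    (IsScalarTower.toAlgHom O B L) (fun _ _ => Commute.all _ _)
  let : Algebra (A ⊗[O] B) L := φ.toRingHom.toAlgebra
  have : IsScalarTower A (A ⊗[O] B) L := IsScalarTower.of_algebraMap_eq fun x => by
    change algebraMap A L x = φ (algebraMap A (A ⊗[O] B) x)
    rw [AlgHom.commutes]
  have hφ : ∀ (x : A) (y : B), φ (x ⊗ₜ[O] y) = algebraMap A L x * algebraMap B L y := by
    intro x y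
    change (Algebra.TensorProduct.lift (Algebra.ofId A L)
      (IsScalarTower.toAlgHom O B L) (fun _ _ => Commute.all _ _)) (x ⊗ₜ[O] y) = _
    rw [Algebra.TensorProduct.lift_tmul]
    rfl
  have hrange : (algebraMap (A ⊗[O] B) L).range = T := by
    rw [hT]
    apply le_antisymm
    · rintro _ ⟨z, rfl⟩
      change φ z ∈ _
      induction z using TensorProduct.induction_on with
      | zero => rw [map_zero]; exact Subring.zero_mem _
      | add x y hx hy => rw [map_add]; exact Subring.add_mem _ hx hy
      | tmul x y =>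
        rw [hφ]
        exact Subring.mul_mem _ ((le_sup_left : (algebraMap A L).range ≤ _) ⟨x, rfl⟩)
          ((le_sup_right : (algebraMap B L).range ≤ _) ⟨y, rfl⟩)
    · rw [sup_le_iff]
      constructor
      · rintro _ ⟨x, rfl⟩
        exact ⟨x ⊗ₜ[O] (1 : B), by
          change φ _ = _
          rw [hφ, map_one, mul_one]⟩
      · rintro _ ⟨y, rfl⟩
        exact ⟨(1 : A) ⊗ₜ[O] y, by
          change φ _ = _
          rw [hφ, map_one, one_mul]⟩
  rw [← hrange] at ha hb
  obtain ⟨a', rfl⟩ := ha
  obtain ⟨b', rfl⟩ := hb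
  have hint' : IsIntegral (A ⊗[O] B) (algebraMap (A ⊗[O] B) L a' / algebraMap (A ⊗[O] B) L b') := by
    obtain ⟨f, hf, hf0⟩ := hint
    have hlift : f.map (Subring.subtype T) ∈ Polynomial.lifts (algebraMap (A ⊗[O] B) L) := by
      rw [Polynomial.lifts_iff_coeff_lifts]
      intro n
      rw [Polynomial.coeff_map]
      have h1 : (Subring.subtype T) (f.coeff n) ∈ (algebraMap (A ⊗[O] B) L).range := by
        rw [hrange]; exact (f.coeff n).2
      exact h1
    obtain ⟨q, hq, -, hqm⟩ := Polynomial.lifts_and_natDegree_eq_and_monic hlift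
      (hf.map (Subring.subtype T))
    refine ⟨q, hqm, ?_⟩
    rw [← Polynomial.eval_map, hq, Polynomial.eval_map]
    exact hf0
  obtain ⟨s, hs⟩ := mem_range_of_isIntegral A (A ⊗[O] B) L hinj a' b' hb0 hint'
  rw [← hrange]
  exact ⟨s, hs⟩

end Normal

end Pool.Agent.ALLE
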